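import Mathlib

/-!
# Expanded cliques and bounded matching number: an extra edge

For `ℓ = r ≥ 3` and `s = C(ℓ, 2)` one edge inside the class `V₀` can be added to the conjectured
extremal `r`-graph without creating an expanded clique or a larger matching, for every `n ≥ s`.
-/

set_option autoImplicit false

namespace Pool.Agent.Results.MP_f4e9fb_co.ExtraEdge

open Finset

/-- `G` contains a copy of `F`: an injective map of the vertices sends edges to edges. -/
def Contains {α β : Type*} [DecidableEq α] (G : Finset (Finset α)) (F : Finset (Finset β)) : Prop :=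
  ∃ f : β → α, Function.Injective f ∧ ∀ e ∈ F, e.image f ∈ G

/-- The vertices of the expanded clique: those of `K_{ℓ+1}` and `r - 2` new ones for each pair. -/
abbrev HVert (r ℓ : ℕ) : Type :=
  Fin (ℓ + 1) ⊕ ({P : Finset (Fin (ℓ + 1)) // P.card = 2} × Fin (r - 2))

/-- The edge of the expanded clique at the pair `P`. -/
def Hedge (r ℓ : ℕ) (P : {P : Finset (Fin (ℓ + 1)) // P.card = 2}) : Finset (HVert r ℓ) :=
  P.1.image Sum.inl ∪ univ.image fun k : Fin (r - 2) => Sum.inr (P, k)

/-- The expanded clique `H_{ℓ+1}^r`. -/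
def Hgraph (r ℓ : ℕ) : Finset (Finset (HVert r ℓ)) := univ.image (Hedge r ℓ)

/-- The matching number is at most `s`. -/
def MatchingAtMost (G : Finset (Finset ℕ)) (s : ℕ) : Prop :=
  ∀ M ⊆ G, (∀ e ∈ M, ∀ e' ∈ M, e ≠ e' → Disjoint e e') → M.card ≤ s

/-- The generalized Turán graph `T_k(m, q)` on `{0, …, m - 1}`, the parts being the classes
modulo `q`. -/
def T (k m q : ℕ) : Finset (Finset ℕ) :=
  ((range m).powersetCard k).filter fun e => ∀ x ∈ e, ∀ y ∈ e, x % q = y % q → x = y

/-- `t_k(m, q)`. -/
def t (k m q : ℕ) : ℕ := (T k m q).card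

/-- The conjectured extremal `r`-graph: `V₀ = {0, …, s - 1}` and `U = {s, …, n - 1}`. -/
def conj (n ℓ s r : ℕ) : Finset (Finset ℕ) :=
  (range s ×ˢ T (r - 1) (n - s) (ℓ - 1)).image fun p => insert p.1 (p.2.image fun x => x + s)

open Classical in
/-- The Turán number `ex_r(n, {H_{ℓ+1}^r, M_{s+1}^r})`. -/
noncomputable def exNum (r n ℓ s : ℕ) : ℕ :=
  (((range n).powersetCard r).powerset.filter fun G =>
    ¬ Contains G (Hgraph r ℓ) ∧ MatchingAtMost G s).sup card

/-! ### The extremal graph with an extra edge -/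

theorem card_conj (n ℓ s r : ℕ) : (conj n ℓ s r).card = s * t (r - 1) (n - s) (ℓ - 1) := by
  unfold conj t
  rw [card_image_of_injOn, card_product, card_range]
  rintro ⟨x, S⟩ h1 ⟨y, S'⟩ h2 h
  rw [mem_coe, mem_product, mem_range] at h1 h2
  simp only at h1 h2 h
  have hxy : x = y := by
    have : x ∈ insert y (S'.image fun x => x + s) := by rw [← h]; exact mem_insert_self _ _
    rw [mem_insert, mem_image] at this
    rcases this with h3 | ⟨z, _, hz⟩
    · exact h3
    · omega
  subst hxy
  have hnot : ∀ A : Finset ℕ, x ∉ A.image fun x => x + s := by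
    intro A hx
    rw [mem_image] at hx
    obtain ⟨z, _, hz⟩ := hx
    omega
  have h3 : (S.image fun x => x + s) = S'.image fun x => x + s := by
    rw [← erase_insert (hnot S), ← erase_insert (hnot S'), h]
  have h4 : S = S' := image_injective (add_left_injective s) h3
  rw [h4]

/-- The properties of the edges of the conjectured graph. -/
theorem conj_spec {n ℓ s r : ℕ} (hr : 1 ≤ r) (hsn : s ≤ n) {e : Finset ℕ}
    (he : e ∈ conj n ℓ s r) :
    e ∈ (range n).powersetCard r ∧ (∃ x, e ∩ range s = {x}) ∧
      ∀ u ∈ e, ∀ v ∈ e, s ≤ u → s ≤ v → (u - s) % (ℓ - 1) = (v - s) % (ℓ - 1) → u = v := by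
  unfold conj at he
  rw [mem_image] at he
  obtain ⟨⟨x, S⟩, hxS, rfl⟩ := he
  rw [mem_product, mem_range] at hxS
  simp only at hxS ⊢
  obtain ⟨hx, hS⟩ := hxS
  rw [T, mem_filter, mem_powersetCard] at hS
  obtain ⟨⟨hSm, hSc⟩, hScol⟩ := hS
  have hxS : x ∉ S.image fun x => x + s := by
    intro h
    obtain ⟨z, _, hz⟩ := mem_image.1 h
    omega
  refine ⟨?_, ⟨x, ?_⟩, ?_⟩
  · rw [mem_powersetCard]
    constructor
    · intro y hy
      rw [mem_insert, mem_image] at hy
      rw [mem_range]
      rcases hy with rfl | ⟨z, hz, rfl⟩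
      · omega
      · have := mem_range.1 (hSm hz)
        omega
    · rw [card_insert_of_notMem hxS, card_image_of_injective _ (add_left_injective s), hSc]
      omega
  · ext y
    rw [mem_inter, mem_insert, mem_image, mem_range, mem_singleton]
    constructor
    · rintro ⟨h1 | ⟨z, _, h1⟩, h2⟩
      · exact h1
      · omega
    · rintro rfl
      exact ⟨Or.inl rfl, hx⟩
  · intro u hu v hv hsu hsv huv
    rw [mem_insert, mem_image] at hu hv
    rcases hu with rfl | ⟨u', hu', rfl⟩
    · omega
    rcases hv with rfl | ⟨v', hv', rfl⟩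
    · omega
    rw [Nat.add_sub_cancel, Nat.add_sub_cancel] at huv
    rw [hScol u' hu' v' hv' huv]

/-- The conjectured graph with the extra edge `{0, …, r - 1}`. -/
def ext (n ℓ s r : ℕ) : Finset (Finset ℕ) := insert (range r) (conj n ℓ s r)

theorem choose_two_succ_le {r : ℕ} (hr : 3 ≤ r) : r ≤ r.choose 2 := by
  rw [Nat.choose_two_right, Nat.le_div_iff_mul_le (by norm_num)]
  exact Nat.mul_le_mul_left r (by omega)

theorem choose_two_eq {r : ℕ} (hr : 3 ≤ r) : r.choose 2 = (r - 1).choose 2 + (r - 1) := by
  obtain ⟨q, rfl⟩ : ∃ q, r = q + 1 := ⟨r - 1, by omega⟩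
  have h := Nat.choose_succ_succ' q 1
  rw [Nat.choose_one_right] at h
  rw [Nat.add_sub_cancel]
  show (q + 1).choose (1 + 1) = q.choose (1 + 1) + q
  omega

theorem range_notMem {n r : ℕ} (hr : 3 ≤ r) (hn : r.choose 2 ≤ n) :
    range r ∉ conj n r (r.choose 2) r := by
  intro h
  obtain ⟨_, ⟨x, hx⟩, _⟩ := conj_spec (by omega) hn h
  have h1 := congrArg card hx
  have h2 : range r ∩ range (r.choose 2) = range r := by
    rw [inter_eq_left]
    exact range_subset_range.2 (choose_two_succ_le hr)
  rw [card_singleton, h2, card_range] at h1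
  omega

theorem card_ext {n r : ℕ} (hr : 3 ≤ r) (hn : r.choose 2 ≤ n) :
    (ext n r (r.choose 2) r).card = r.choose 2 * t (r - 1) (n - r.choose 2) (r - 1) + 1 := by
  unfold ext
  rw [card_insert_of_notMem (range_notMem hr hn), card_conj]

theorem ext_subset {n r : ℕ} (hr : 3 ≤ r) (hn : r.choose 2 ≤ n) :
    ext n r (r.choose 2) r ⊆ (range n).powersetCard r := by
  intro e he
  rw [ext, mem_insert] at he
  rcases he with rfl | he
  · rw [mem_powersetCard]
    exact ⟨range_subset_range.2 ((choose_two_succ_le hr).trans hn), card_range _⟩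
  · exact (conj_spec (by omega) hn he).1

theorem matching_ext {n r : ℕ} (hr : 3 ≤ r) (hn : r.choose 2 ≤ n) :
    MatchingAtMost (ext n r (r.choose 2) r) (r.choose 2) := by
  intro M hM hdis
  have hmeet : ∀ e ∈ M, ∃ x ∈ e, x ∈ range (r.choose 2) := by
    intro e he
    have he' := hM he
    rw [ext, mem_insert] at he'
    rcases he' with rfl | he'
    · refine ⟨0, ?_, ?_⟩
      · rw [mem_range]; omega
      · rw [mem_range]
        have := choose_two_succ_le hr
        omega
    · obtain ⟨_, ⟨x, hx⟩, _⟩ := conj_spec (by omega) hn he'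
      have : x ∈ e ∩ range (r.choose 2) := by rw [hx]; exact mem_singleton_self _
      rw [mem_inter] at this
      exact ⟨x, this.1, this.2⟩
  choose! g hg1 hg2 using hmeet
  calc M.card ≤ (range (r.choose 2)).card := by
        apply card_le_card_of_injOn g (fun e he => hg2 e he)
        intro e he e' he' hee
        by_contra hne
        have hd := hdis e he e' he' hne
        rw [disjoint_left] at hd
        exact hd (hg1 e he) (by rw [hee]; exact hg1 e' he')
    _ = r.choose 2 := card_range _

theorem free_ext {n r : ℕ} (hr : 3 ≤ r) (hn : r.choose 2 ≤ n) :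
    ¬ Contains (ext n r (r.choose 2) r) (Hgraph r r) := by
  rintro ⟨f, hf, hfe⟩
  set s := r.choose 2 with hs
  have hedge : ∀ P : {P : Finset (Fin (r + 1)) // P.card = 2},
      (Hedge r r P).image f ∈ ext n r s r := by
    intro P
    exact hfe _ (mem_image.2 ⟨P, mem_univ _, rfl⟩)
  have hcore : ∀ (P : {P : Finset (Fin (r + 1)) // P.card = 2}) (i : Fin (r + 1)),
      i ∈ P.1 → f (Sum.inl i) ∈ (Hedge r r P).image f := by
    intro P i hi
    apply mem_image_of_mem
    rw [Hedge, mem_union]
    left
    exact mem_image_of_mem _ hi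
  have hcore' : ∀ (P : {P : Finset (Fin (r + 1)) // P.card = 2}) (i : Fin (r + 1)),
      f (Sum.inl i) ∈ (Hedge r r P).image f → i ∈ P.1 := by
    intro P i hi
    obtain ⟨x, hx, hxi⟩ := mem_image.1 hi
    have hxi' := hf hxi
    subst hxi'
    rw [Hedge, mem_union, mem_image, mem_image] at hx
    rcases hx with ⟨j, hj, hji⟩ | ⟨k, _, hk⟩
    · rw [← Sum.inl_injective hji]
      exact hj
    · exact absurd hk (by simp)
  -- the core vertices in `V₀`
  set A : Finset (Fin (r + 1)) := univ.filter fun i => f (Sum.inl i) < s with hA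
  -- an edge with two core vertices in `V₀` is the extra edge
  have hpair : ∀ P : {P : Finset (Fin (r + 1)) // P.card = 2}, P.1 ⊆ A →
      (Hedge r r P).image f = range r := by
    intro P hP
    have h1 := hedge P
    rw [ext, mem_insert] at h1
    rcases h1 with h1 | h1
    · exact h1
    exfalso
    obtain ⟨_, ⟨x, hx⟩, _⟩ := conj_spec (by omega) hn h1
    obtain ⟨i, j, hij, hPij⟩ := card_eq_two.1 P.2
    have hi : i ∈ P.1 := by rw [hPij]; simp
    have hj : j ∈ P.1 := by rw [hPij]; simp
    have hi' : f (Sum.inl i) ∈ (Hedge r r P).image f ∩ range s := by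
      rw [mem_inter, mem_range]
      exact ⟨hcore P i hi, (mem_filter.1 (hP hi)).2⟩
    have hj' : f (Sum.inl j) ∈ (Hedge r r P).image f ∩ range s := by
      rw [mem_inter, mem_range]
      exact ⟨hcore P j hj, (mem_filter.1 (hP hj)).2⟩
    rw [hx, mem_singleton] at hi' hj'
    have := hf (hi'.trans hj'.symm)
    exact hij (Sum.inl_injective this)
  -- an edge with a core vertex outside `V₀` is not the extra edge
  have hout : ∀ (P : {P : Finset (Fin (r + 1)) // P.card = 2}) (i : Fin (r + 1)),
      i ∈ P.1 → i ∉ A → (Hedge r r P).image f ∈ conj n r s r := by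
    intro P i hi hiA
    have h1 := hedge P
    rw [ext, mem_insert] at h1
    rcases h1 with h1 | h1
    · exfalso
      have h2 := hcore P i hi
      rw [h1, mem_range] at h2
      apply hiA
      rw [hA, mem_filter]
      refine ⟨mem_univ _, ?_⟩
      have := choose_two_succ_le hr
      omega
    · exact h1
  have hAc : A.card + (univ \ A).card = r + 1 := by
    rw [card_sdiff_of_subset (subset_univ A), card_univ, Fintype.card_fin]
    have := card_le_univ A
    rw [Fintype.card_fin] at this
    omega
  -- at least two core vertices lie in `V₀`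
  have hA2 : 2 ≤ A.card := by
    by_contra hcon
    have h1 : r - 1 < (univ \ A).card := by omega
    have hr1 : 0 < r - 1 := by omega
    obtain ⟨i, hi, j, hj, hij, hcol⟩ :=
      exists_ne_map_eq_of_card_lt_of_maps_to (s := univ \ A) (t := range (r - 1))
        (f := fun i => (f (Sum.inl i) - s) % (r - 1)) (by rw [card_range]; exact h1)
        (fun i _ => by
          rw [coe_range, Set.mem_Iio]
          exact Nat.mod_lt _ hr1)
    rw [mem_sdiff] at hi hj
    have h2 := hout ⟨{i, j}, card_pair hij⟩ i (by simp) hi.2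
    obtain ⟨_, _, h3⟩ := conj_spec (by omega) hn h2
    have hi' : s ≤ f (Sum.inl i) := by
      by_contra hc
      exact hi.2 (by rw [hA, mem_filter]; exact ⟨mem_univ _, by omega⟩)
    have hj' : s ≤ f (Sum.inl j) := by
      by_contra hc
      exact hj.2 (by rw [hA, mem_filter]; exact ⟨mem_univ _, by omega⟩)
    have h4 := h3 _ (hcore _ i (by simp)) _ (hcore _ j (by simp)) hi' hj' hcol
    exact hij (Sum.inl_injective (hf h4))
  -- exactly two
  obtain ⟨i, hi, j, hj, hij⟩ := one_lt_card.1 (show 1 < A.card by omega)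
  have hPA : (Hedge r r ⟨{i, j}, card_pair hij⟩).image f = range r := by
    apply hpair
    intro x hx
    rw [mem_insert, mem_singleton] at hx
    rcases hx with rfl | rfl
    · exact hi
    · exact hj
  have hAeq : A = {i, j} := by
    apply Subset.antisymm
    · intro k hk
      by_contra hkij
      rw [mem_insert, mem_singleton, not_or] at hkij
      have hP2 : (Hedge r r ⟨{i, k}, card_pair (Ne.symm hkij.1)⟩).image f = range r := by
        apply hpair
        intro x hx
        rw [mem_insert, mem_singleton] at hx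
        rcases hx with rfl | rfl
        · exact hi
        · exact hk
      have h1 : f (Sum.inl k) ∈ (Hedge r r ⟨{i, k}, card_pair (Ne.symm hkij.1)⟩).image f :=
        hcore _ k (by simp)
      rw [hP2, ← hPA] at h1
      have h2 := hcore' _ k h1
      simp only [mem_insert, mem_singleton] at h2
      tauto
    · intro x hx
      rw [mem_insert, mem_singleton] at hx
      rcases hx with rfl | rfl
      · exact hi
      · exact hj
  have hBc : (univ \ A).card = r - 1 := by
    have : A.card = 2 := by rw [hAeq, card_pair hij]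
    omega
  -- each pair outside `A` has its own vertex of `V₀` outside the extra edge
  have hown : ∀ P : Finset (Fin (r + 1)), P ∈ (univ \ A).powersetCard 2 →
      ∃ (k : Fin (r - 2)) (hP : P.card = 2), f (Sum.inr (⟨P, hP⟩, k)) ∈ range s \ range r := by
    intro P hP
    rw [mem_powersetCard] at hP
    have hne : P.Nonempty := by
      rw [← card_pos, hP.2]
      norm_num
    obtain ⟨a, ha⟩ := hne
    have haA : a ∉ A := (mem_sdiff.1 (hP.1 ha)).2
    obtain ⟨_, ⟨x, hx⟩, _⟩ := conj_spec (by omega) hn (hout ⟨P, hP.2⟩ a ha haA)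
    have hx1 : x ∈ (Hedge r r ⟨P, hP.2⟩).image f ∩ range s := by
      rw [hx]; exact mem_singleton_self _
    rw [mem_inter] at hx1
    obtain ⟨y, hy, hyx⟩ := mem_image.1 hx1.1
    rw [Hedge, mem_union, mem_image, mem_image] at hy
    rcases hy with ⟨b, hb, hby⟩ | ⟨k, _, hk⟩
    · exfalso
      have hbA : b ∉ A := (mem_sdiff.1 (hP.1 hb)).2
      apply hbA
      rw [hA, mem_filter]
      refine ⟨mem_univ _, ?_⟩
      rw [hby, hyx]
      exact mem_range.1 hx1.2
    · refine ⟨k, hP.2, ?_⟩
      rw [hk, hyx, mem_sdiff]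
      refine ⟨hx1.2, fun hxr => ?_⟩
      rw [← hPA, ← hyx, ← hk] at hxr
      obtain ⟨z, hz, hzx⟩ := mem_image.1 hxr
      have hz' := hf hzx
      subst hz'
      rw [Hedge, mem_union, mem_image, mem_image] at hz
      rcases hz with ⟨b, _, hb⟩ | ⟨k', _, hk'⟩
      · exact absurd hb (by simp)
      · have h5 := Sum.inr_injective hk'
        rw [Prod.mk.injEq, Subtype.mk.injEq] at h5
        have h6 : a ∈ ({i, j} : Finset (Fin (r + 1))) := by rw [h5.1]; exact ha
        rw [← hAeq] at h6
        exact haA h6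
  have : Nonempty (Fin (r - 2)) := ⟨⟨0, by omega⟩⟩
  choose! g hg using hown
  have hcount : ((univ \ A).powersetCard 2).card ≤ (range s \ range r).card := by
    apply card_le_card_of_injOn
      (fun P => if hP : P.card = 2 then f (Sum.inr (⟨P, hP⟩, g P)) else 0)
    · intro P hP
      obtain ⟨hP2, hP3⟩ := hg P hP
      simp only [hP2, dif_pos]
      exact hP3
    · intro P hP Q hQ hPQ
      obtain ⟨hP2, hP3⟩ := hg P hP
      obtain ⟨hQ2, hQ3⟩ := hg Q hQ
      simp only [hP2, hQ2, dif_pos] at hPQ
      have h1 := Sum.inr_injective (hf hPQ)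
      rw [Prod.mk.injEq, Subtype.mk.injEq] at h1
      exact h1.1
  rw [card_powersetCard, hBc, card_sdiff_of_subset (range_subset_range.2 (choose_two_succ_le hr)),
    card_range, card_range] at hcount
  have h7 := choose_two_eq hr
  have h8 := choose_two_succ_le hr
  rw [← hs] at h7 h8
  generalize (r - 1).choose 2 = w at h7 hcount
  omega

/-- **An extra edge.**  For every `r ≥ 3`, with `ℓ = r` and `s = C(ℓ, 2)`, and for every `n ≥ s`,
the Turán number `ex_r(n, {H_{ℓ+1}^r, M_{s+1}^r})` is larger than `s t_{r-1}(n - s, ℓ - 1)`. -/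
theorem result : ∀ r ℓ s : ℕ, 3 ≤ r → ℓ = r → s = ℓ.choose 2 → ∀ n ≥ s,
    s * t (r - 1) (n - s) (ℓ - 1) < exNum r n ℓ s := by
  rintro r ℓ s hr rfl rfl n hn
  have h1 := card_ext hr hn
  have h2 : (ext n ℓ (ℓ.choose 2) ℓ).card ≤ exNum ℓ n ℓ (ℓ.choose 2) := by
    classical
    unfold exNum
    apply le_sup (f := card)
    rw [mem_filter, mem_powerset]
    exact ⟨ext_subset hr hn, free_ext hr hn, matching_ext hr hn⟩
  omega

end Pool.Agent.Results.MP_f4e9fb_co.ExtraEdge
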